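import Pool.Agent.ATZ.Stmts1
import Pool.Agent.Helper88_AT3.Loc
import Pool.Agent.Helper85_AT3.LSB
import Pool.Agent.Helper79_AT3.FUS
import Pool.Agent.Helper49_AT3.CNT
import Pool.Agent.Helper50_PP.Ffa

/-!
# Squad ATZ, row ZAB: the data for an abelian defect group
-/

noncomputable section

namespace Pool.Agent.PP.TB.H82

open Pool.Agent.Helper51_AWC Pool.Agent.Helper79_WRA Pool.Agent.PP Pool.Agent.PP.KF
open Pool.Agent.PP.K9 Pool.Agent.PP.K9.H97 Pool.Agent.PP.H75 Pool.Agent.PP.T3 Pool.Agent.PP.T2
open Pool.Agent.PP.T5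

attribute [local instance] Ideal.Quotient.field

theorem zab : ZabStmt := by
  intro ℓ _ M _ hM G _ _ e V γ hL
  have hF : GoodF ℓ (FF M) := H50.fld ℓ Fact.out M hM
  constructor
  · have hloc := T3.H88.loc ℓ (FF M) hF G e V γ hL
    have hex : ∀ z : G, ∃ b : G → FF M, z ∈ V → Lc e V γ z b := by
      intro z
      by_cases hz : z ∈ V
      · obtain ⟨b, hb⟩ := (hloc z hz).1
        exact ⟨b, fun _ => hb⟩
      · exact ⟨0, fun h => absurd h hz⟩
    choose b hb using hex
    refine ⟨b, ?_⟩
    refine { blk := hL.blk, tp := hL.tp, gam := hL.gam, und := hL.und, le := le_rfl,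
             cen := fun z hz v hv => hL.ab v hv z hz, nrm := ?_, lb := ?_, fus := ?_ }
    · intro t ht z hz
      exact (Subgroup.mem_normalizer_iff.1 (Subgroup.mem_inf.1 ht).1 z).1 hz
    · intro z hz
      refine ⟨?_, (hb z hz).gam⟩
      refine { blk := hL.blk, tp := hL.tp, mem := hz, cen := fun v hv => hL.ab v hv z hz,
               bx := (hb z hz).blk, und := (hb z hz).und, gd := ?_ }
      by_contra hgd
      have h0 : br V (b z) = 0 := by
        funext x
        by_cases hx : x ∈ Subgroup.centralizer (V : Set G)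
        · rw [H66.br_of_mem hx]
          by_contra h
          exact hgd ⟨x, hx, h⟩
        · rw [H66.br_of_not_mem hx]
          rfl
      have h1 := (hb z hz).gam
      rw [h0, mulF_zero_left] at h1
      exact hL.gam.ne h1.symm
    · intro z hz z' hz' x hx hxb
      exact T3.H79.fus T3.H85.lsb ℓ M hM G e V γ hL z hz z' hz' (b z) (b z') (hb z hz) (hb z' hz')
        x hx hxb
  · unfold iz ix
    rw [inf_eq_left.2 (T3.H49.cen_le_Tg hL.gam)]

end Pool.Agent.PP.TB.H82
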